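import Pool.Agent.H.MP_051359_an.Arc

open Filter Topology Finset Complex Metric

namespace Pool.Agent.Results.MP_051359_an.Empty

/-- A(K): continuous functions on K that are holomorphic in the interior of K. -/
def A (K : Set ℂ) : Set C(K, ℂ) :=
  {g | ∃ G : ℂ → ℂ, (∀ z : K, G z = g z) ∧ DifferentiableOn ℂ G (interior K)}

/-- The Taylor polynomial S_n(f) at 0. -/
noncomputable def S (f : ℂ → ℂ) (n : ℕ) (z : ℂ) : ℂ :=
  ∑ k ∈ range (n + 1), iteratedDeriv k f 0 / k.factorial * z ^ k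

/-- S_n(f) restricted to K, as an element of A(K). -/
noncomputable def SK (f : ℂ → ℂ) (n : ℕ) (K : Set ℂ) : A K :=
  ⟨⟨fun z => S f n z, by unfold S; fun_prop⟩, S f n, fun _ => rfl, by unfold S; fun_prop⟩

open Classical in
/-- Lower natural density. -/
noncomputable def ld (E : Set ℕ) : ℝ :=
  liminf (fun N : ℕ => (((range (N + 1)).filter (· ∈ E)).card : ℝ) / (N + 1)) atTop

/-- f is a K-frequently universal Taylor series. -/
def FU (K : Set ℂ) : Set (ℂ → ℂ) :=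
  {f | DifferentiableOn ℂ f (ball 0 1) ∧
    ∀ U : Set (A K), IsOpen U → U.Nonempty → 0 < ld {n | SK f n K ∈ U}}

/-- The family M(r,R). -/
def M (r R : ℝ) : Set (Set ℂ) :=
  {K | IsCompact K ∧ K ⊆ (ball 0 1)ᶜ ∧ IsConnected Kᶜ ∧ ∀ z ∈ K, r ≤ ‖z‖ ∧ ‖z‖ ≤ R}

open Pool.Agent.H.MP_051359_an

lemma win {E : Set ℕ} (h : 0 < ld E) :
    ∃ δ : ℝ, 0 < δ ∧ ∀ᶠ N : ℕ in atTop, ∃ n ∈ E, n ≤ N ∧ δ * (N + 1) < n + 1 := by
  classical
  refine ⟨ld E / 2, by linarith, ?_⟩
  filter_upwards [eventually_lt_of_lt_liminf (half_lt_self h)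
    (isBoundedUnder_of_eventually_ge (a := 0) (Eventually.of_forall fun N => by positivity))]
    with N hN
  by_contra c
  push Not at c
  rw [lt_div_iff₀ (by positivity)] at hN
  have h1 : (range (N + 1)).filter (· ∈ E) ⊆ range ⌊ld E / 2 * (N + 1)⌋₊ := fun n hn => by
    rw [mem_filter, mem_range] at hn
    exact mem_range.2 (Nat.le_floor (by exact_mod_cast c n hn.2 (by omega)))
  have h2 : (((range (N + 1)).filter (· ∈ E)).card : ℝ) ≤ ⌊ld E / 2 * (N + 1)⌋₊ := by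
    exact_mod_cast (card_le_card h1).trans (card_range _).le
  have h3 := Nat.floor_le (a := ld E / 2 * (N + 1)) (by positivity)
  exact absurd (hN.trans_le (by convert h2)) (not_lt.2 h3)

lemma near {K : Set ℂ} (hK : IsCompact K) {f : ℂ → ℂ} (hf : f ∈ FU K) (c : ℂ) :
    ∃ δ : ℝ, 0 < δ ∧ ∀ᶠ N : ℕ in atTop, ∃ n, (∀ z ∈ K, ‖S f n z - c‖ < 1) ∧ n ≤ N ∧
      δ * (N + 1) < n + 1 := by
  have := isCompact_iff_compactSpace.1 hK
  have o1 : IsOpen {g : C(K, ℂ) | Set.MapsTo g Set.univ (ball c 1)} :=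
    ContinuousMap.isOpen_setOfPred_mapsTo isCompact_univ isOpen_ball
  have o2 : IsOpen {g : A K | Set.MapsTo g.1 Set.univ (ball c 1)} :=
    o1.preimage continuous_subtype_val
  have o3 : ContinuousMap.const K c ∈ A K := ⟨fun _ => c, fun _ => rfl, differentiableOn_const c⟩
  obtain ⟨δ, h0, h1⟩ := win (hf.2 _ o2 ⟨⟨_, o3⟩, fun _ _ => mem_ball_self one_pos⟩)
  refine ⟨δ, h0, h1.mono fun N ⟨n, h2, h3⟩ => ⟨n, fun z hz => ?_, h3⟩⟩
  have h4 : (SK f n K).1 ⟨z, hz⟩ ∈ ball c 1 := h2 (Set.mem_univ _)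
  exact mem_ball_iff_norm.1 h4

lemma conn {R s : ℝ} (hR : 0 < R) (hs : -1 < s) :
    IsConnected {z : ℂ | ‖z‖ = R ∧ R * s ≤ z.re}ᶜ := by
  have h1 : IsConnected {z : ℂ | R < ‖z‖} := by
    have e : {z : ℂ | R < ‖z‖} =
        (fun p : ℝ × ℝ => (p.1 : ℂ) * exp (p.2 * I)) '' (Set.Ioi R ×ˢ Set.univ) := by
      ext z
      refine ⟨fun h => ⟨(‖z‖, arg z), ⟨h, trivial⟩, norm_mul_exp_arg_mul_I z⟩, ?_⟩
      rintro ⟨⟨t, θ⟩, ⟨h, -⟩, rfl⟩
      have : 0 < t := hR.trans h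
      simpa [norm_exp_ofReal_mul_I, this.le, abs_of_pos this] using h
    rw [e]
    exact (isConnected_Ioi.prod isConnected_univ).image _ (by fun_prop)
  have h2 : IsConnected {z : ℂ | z.re < R * s} :=
    (convex_halfSpace_re_lt _).isConnected ⟨(R * s - 1 : ℝ), by simp⟩
  have h3 : IsConnected (ball (0 : ℂ) R) := (convex_ball _ _).isConnected (nonempty_ball.2 hR)
  have e : {z : ℂ | ‖z‖ = R ∧ R * s ≤ z.re}ᶜ =
      (ball (0 : ℂ) R ∪ {z : ℂ | z.re < R * s}) ∪ {z : ℂ | R < ‖z‖} := by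
    ext z
    simp only [Set.mem_compl_iff, Set.mem_ofPred_eq, Set.mem_union, mem_ball_zero_iff, not_and_or,
      not_le, ← ne_eq, ne_iff_lt_or_gt]
    tauto
  rw [e]
  set t := min s 0 with ht
  have t1 : -1 < t := lt_min hs (by norm_num)
  have t2 : t ≤ s := min_le_left _ _
  have t3 : t ≤ 0 := min_le_right _ _
  refine IsConnected.union ⟨((-2 * R : ℝ) : ℂ), Or.inr ?_, ?_⟩
    (IsConnected.union ⟨((R * ((t - 1) / 2) : ℝ) : ℂ), ?_, ?_⟩ h3 h2) h1
  rotate_left 2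
  · rw [mem_ball_zero_iff, norm_real, Real.norm_eq_abs, abs_lt]
    constructor <;> nlinarith
  · simp only [Set.mem_ofPred_eq, ofReal_re]; nlinarith
  · simp only [Set.mem_ofPred_eq, ofReal_re]; nlinarith
  · rw [Set.mem_ofPred_eq, norm_real, Real.norm_eq_abs, abs_of_neg (by linarith)]; linarith

theorem result (r R : ℝ) (hr : 1 ≤ r) (hR : r < R) : ⋂ K ∈ M r R, FU K = ∅ := by
  refine Set.eq_empty_of_forall_notMem fun f hf => ?_
  simp only [Set.mem_iInter] at hf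
  have r0 : 0 < r := by linarith
  have R0 : 0 < R := by linarith
  have nr : ‖(r : ℂ)‖ = r := by simp [r0.le]
  have m1 : ({(r : ℂ)} : Set ℂ) ∈ M r R := ⟨isCompact_singleton, by simp [hr, abs_of_pos r0],
    isConnected_compl_singleton_of_one_lt_rank (by simp) _, by simp [abs_of_pos r0, hR.le]⟩
  obtain ⟨δ₁, d1, h1⟩ := near isCompact_singleton (hf _ m1) 0
  obtain ⟨δ₂, d2, h2⟩ := near isCompact_singleton (hf _ m1) 4
  set δ := min δ₁ δ₂ with hδ
  have d0 : 0 < δ := lt_min d1 d2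
  have ρ0 : 0 < r / R := by positivity
  have ρ1 : r / R < 1 := (div_lt_one R0).2 hR
  set σ := (r / R) ^ δ with hσ
  have σ0 : 0 < σ := by positivity
  have σ1 : σ < 1 := Real.rpow_lt_one ρ0.le ρ1 d0
  set Λ := 2 / (1 + σ) with hΛ
  have Λ1 : 1 < Λ := (one_lt_div (by positivity)).2 (by linarith)
  have θ1 : Λ * σ < 1 := by
    rw [hΛ, div_mul_eq_mul_div, div_lt_one (by positivity)]; linarith
  set γ := 2 * Λ / (Λ ^ 2 + 1) with hγ
  have g1 : γ * (Λ ^ 2 + 1) = 2 * Λ := div_mul_cancel₀ _ (by positivity)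
  have g0 : 0 < γ := by positivity
  have g2 : γ < 1 := (div_lt_one (by positivity)).2 (by nlinarith)
  have cK : IsCompact {z : ℂ | ‖z‖ = R ∧ R * (1 - 2 * γ ^ 2) ≤ z.re} :=
    (isCompact_sphere (0 : ℂ) R).of_isClosed_subset
      ((isClosed_eq continuous_norm continuous_const).inter
        (isClosed_le continuous_const continuous_re)) fun z hz => by simpa using hz.1
  obtain ⟨δ₃, d3, h3⟩ := near cK (hf _ ⟨cK, fun z hz => by simp [hz.1]; linarith,
    conn R0 (by nlinarith), fun z hz => ⟨hz.1 ▸ hR.le, hz.1.le⟩⟩) 0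
  have t1 := ((tendsto_self_mul_const_pow_of_lt_one (by positivity) θ1).comp
    (tendsto_add_atTop_nat 1)).eventually (gt_mem_nhds one_pos)
  obtain ⟨J, hJ⟩ := eventually_atTop.1 (h1.and (h2.and t1))
  obtain ⟨N', ⟨N, h4, -, h5⟩, h6⟩ :=
    (h3.and (tendsto_natCast_atTop_atTop.eventually_ge_atTop ((J + 1) / δ₃))).exists
  have hN : J ≤ N := by
    rw [div_le_iff₀ d3] at h6
    have : (J : ℝ) < N := by nlinarith
    exact_mod_cast this.le
  obtain ⟨⟨m₁, a1, a2, a3⟩, ⟨m₂, b1, b2, b3⟩, h7⟩ := hJ N hN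
  set a : ℕ → ℂ := fun k => iteratedDeriv k f 0 / k.factorial with ha
  have c1 : ∀ k ≤ N, ‖a k * R ^ k‖ ≤ Λ ^ N := fun k hk =>
    coef (fun k => a k * R ^ k) N (by positivity) (fun z hz => arc _ N Λ1 g1 (fun w w1 w2 => by
      have := h4 (R * w) ⟨by simp [w1, R0.le], by
        rw [re_ofReal_mul]; exact mul_le_mul_of_nonneg_left w2 R0.le⟩
      simp only [S, sub_zero, mul_pow, ← mul_assoc] at this
      exact this.le) hz) hk
  have c2 : ∀ m ≤ N, δ * (N + 1) < m + 1 → ‖S f N r - S f m r‖ < 1 := fun m hm h => by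
    have e := sum_Ico_eq_sub (fun k => a k * (r : ℂ) ^ k) (Nat.succ_le_succ hm)
    simp only [S]
    rw [← e]
    refine lt_of_le_of_lt ((norm_sum_le _ _).trans (sum_le_card_nsmul _ _ ((Λ * σ) ^ (N + 1))
      fun k hk => ?_)) (lt_of_le_of_lt ?_ h7)
    · rw [mem_Ico] at hk
      have e2 : a k * (r : ℂ) ^ k = a k * R ^ k * ((r / R : ℝ) : ℂ) ^ k := by
        have : (R : ℂ) ≠ 0 := by exact_mod_cast R0.ne'
        push_cast; rw [div_pow]; field_simp
      have k1 : (m : ℝ) + 1 ≤ k := by exact_mod_cast hk.1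
      have e3 : (r / R) ^ k ≤ σ ^ (N + 1) := by
        rw [hσ, ← Real.rpow_natCast, ← Real.rpow_mul_natCast ρ0.le]
        exact Real.rpow_le_rpow_of_exponent_ge ρ0 ρ1.le (by push_cast; linarith)
      rw [e2, norm_mul, norm_pow, norm_real, Real.norm_of_nonneg ρ0.le, mul_pow]
      exact mul_le_mul ((c1 k (by omega)).trans (pow_le_pow_right₀ Λ1.le (by omega))) e3
        (by positivity) (by positivity)
    · rw [nsmul_eq_mul, Nat.card_Ico]
      exact mul_le_mul_of_nonneg_right (by exact_mod_cast Nat.sub_le _ _) (by positivity)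
  have N0 : (0 : ℝ) ≤ N + 1 := by positivity
  have e1 := c2 m₁ a2 ((mul_le_mul_of_nonneg_right (min_le_left _ _) N0).trans_lt a3)
  have e2 := c2 m₂ b2 ((mul_le_mul_of_nonneg_right (min_le_right _ _) N0).trans_lt b3)
  have e3 := a1 r rfl
  have e4 := b1 r rfl
  have e5 : (4 : ℂ) = (S f m₁ r - 0) + (S f N r - S f m₁ r) - (S f N r - S f m₂ r) -
      (S f m₂ r - 4) := by ring
  have e6 : ‖(4 : ℂ)‖ ≤ _ := e5 ▸ (norm_sub_le _ _).trans (add_le_add
    ((norm_sub_le _ _).trans (add_le_add (norm_add_le _ _) le_rfl)) le_rfl)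
  rw [Complex.norm_ofNat] at e6
  linarith

end Pool.Agent.Results.MP_051359_an.Empty
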